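import Pool.Agent.N704.QV.BLa

/-!
# QV/BL, second part: the blocks (helper704, after helper519)
-/

set_option autoImplicit false

namespace Pool.Agent.N704.QV

open Finset Pool.Agent.N728.QL Pool.Agent.N728.QG Pool.Agent.N728.QU
open Pool.Agent.N519.QU hiding VW_pos lz_nonneg lz_le

noncomputable section

theorem blkUpg {C : ℝ} {z B : ℕ} {c : ℤ} (hup : UpH C z B c)
    {σ α b : ℤ} (hσ : σ = 1 ∨ σ = -1) {A P L X1 X2 PN : ℕ} (hA : 1 ≤ A)
    (hPN : (PN : ℤ) = 2 * A * P + b) (hX : X1 ≤ X2) (hXL : L ≤ X2 - X1)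
    (hBL : B ≤ L ^ 2) (hB2 : A * X2 + PN + 2 * (A * L) ≤ B ^ 2)
    (hm : α = A ∨ (α = -A ∧ A * X2 ≤ PN)) :
    ∑ h ∈ Ioc P (P + L), ∑ u ∈ Ioc X1 X2, |gb α σ c z B (2 * A * h + b) u| ≤
      A * C * (((X2 : ℝ) - X1) * ((X2 : ℝ) - X1 + 2 * L)) := by
  have hBX : B ≤ (X2 - X1) ^ 2 := hBL.trans (Nat.pow_le_pow_left hXL 2)
  have hA' : (1 : ℤ) ≤ A := by exact_mod_cast hA
  have hA0 : (0 : ℤ) ≤ A := by omega
  have n1 : A * X1 ≤ A * X2 := Nat.mul_le_mul_left _ hX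
  have n2 : L ≤ A * L := Nat.le_mul_of_pos_left _ hA
  have n3 : X2 ≤ A * X2 := Nat.le_mul_of_pos_left _ hA
  rcases hm with rfl | ⟨rfl, hm⟩
  · have h1 := blkg (F := fun n => |Eu σ c z B n|) (fun n => abs_nonneg _) A b A P L X1 X2
      (A * X1 + PN) (A * X2 + PN + 2 * (A * L)) hA (by
        intro u hu h hh
        rw [mem_Ioc] at hu hh
        have e1 : (A : ℤ) * (X1 + 1) ≤ A * u :=
          mul_le_mul_of_nonneg_left (by exact_mod_cast hu.1) hA0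
        have e2 : (A : ℤ) * u ≤ A * X2 :=
          mul_le_mul_of_nonneg_left (by exact_mod_cast hu.2) hA0
        have e3 : (A : ℤ) * P ≤ A * h :=
          mul_le_mul_of_nonneg_left (by exact_mod_cast hh.1.le) hA0
        have e4 : (A : ℤ) * h ≤ A * (P + L) :=
          mul_le_mul_of_nonneg_left (by exact_mod_cast hh.2) hA0
        push_cast
        constructor <;> linarith)
    have h2 := hup σ hσ X1 X2 (A * X1 + PN) (A * X2 + PN + 2 * (A * L)) hX hBX (by omega) (by omega)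
      (hBL.trans (Nat.pow_le_pow_left (by omega) 2)) (by omega)
    refine (h1.trans h2).trans (le_of_eq ?_)
    push_cast
    ring
  · have h1 := blkg (F := fun n => |Eu σ c z B n|) (fun n => abs_nonneg _) (-A) b A P L X1 X2
      (PN - A * X2) (PN + 2 * (A * L) - A * X1) hA (by
        intro u hu h hh
        rw [mem_Ioc] at hu hh
        have e1 : (A : ℤ) * (X1 + 1) ≤ A * u :=
          mul_le_mul_of_nonneg_left (by exact_mod_cast hu.1) hA0
        have e2 : (A : ℤ) * u ≤ A * X2 :=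
          mul_le_mul_of_nonneg_left (by exact_mod_cast hu.2) hA0
        have e3 : (A : ℤ) * (P + 1) ≤ A * h :=
          mul_le_mul_of_nonneg_left (by exact_mod_cast hh.1) hA0
        have e4 : (A : ℤ) * h ≤ A * (P + L) :=
          mul_le_mul_of_nonneg_left (by exact_mod_cast hh.2) hA0
        rw [Nat.cast_sub hm, Nat.cast_sub (by omega)]
        push_cast
        constructor <;> linarith)
    have h2 := hup σ hσ X1 X2 (PN - A * X2) (PN + 2 * (A * L) - A * X1) hX hBX (by omega) (by omega)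
      (hBL.trans (Nat.pow_le_pow_left (by omega) 2)) (by omega)
    refine (h1.trans h2).trans (le_of_eq ?_)
    rw [Nat.cast_sub hm, Nat.cast_sub (by omega)]
    push_cast
    ring

theorem mainbg {C ε1 δ : ℝ} {K' z B : ℕ} {c : ℤ} (hε1 : 0 ≤ ε1)
    (hup : UpH C z B c) {α b : ℤ} (hMC : MCH K' ε1 δ z B c α)
    {σ : ℤ} (hσ : σ = 1 ∨ σ = -1) {A P L T PN : ℕ} (hA : 1 ≤ A) (hPN : (PN : ℤ) = 2 * A * P + b)
    (ha : α = A ∨ α = -A)
    (hBL : B ≤ L ^ 2) (hB2 : A * L + PN + 2 * (A * L) ≤ B ^ 2) (hL2 : A * L ≤ PN)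
    (hδ : (1 + δ) * (B : ℝ) ≤ PN) (hBP : B ≤ PN) (hPB : PN + 2 * (A * L) ≤ 4 * B)
    (hlog : (B : ℝ) ≤ (L : ℝ) * Real.log B) (hT : T ≤ K' * B)
    (hR : Rge (Polynomial.C α * Polynomial.X) K' B T) (hC : 0 ≤ C) :
    ∑ h ∈ Ioc P (P + L), |∑ t ∈ Icc 1 T, gb α σ c z B (2 * A * h + b) t| ≤
      3 * (A * C) * (L : ℝ) ^ 2 + ε1 * K' * (B : ℝ) ^ 2 := by
  have hA0 : (0 : ℤ) ≤ A := Int.natCast_nonneg _
  have hA' : (1 : ℤ) ≤ A := by exact_mod_cast hA
  rcases le_or_gt T L with hTL | hTL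
  · have h1 := blkUpg hup (α := α) (b := b) hσ (X1 := 0) (X2 := L) hA hPN (Nat.zero_le _) (by omega)
      hBL hB2 (by
      rcases ha with h | h
      · exact Or.inl h
      · exact Or.inr ⟨h, hL2⟩)
    have h2 : ∑ h ∈ Ioc P (P + L), |∑ t ∈ Icc 1 T, gb α σ c z B (2 * A * h + b) t| ≤
        ∑ h ∈ Ioc P (P + L), ∑ u ∈ Ioc 0 L, |gb α σ c z B (2 * A * h + b) u| := by
      refine Finset.sum_le_sum fun h _ => ?_
      refine (Finset.abs_sum_le_sum_abs _ _).trans ?_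
      refine Finset.sum_le_sum_of_subset_of_nonneg ?_ fun _ _ _ => abs_nonneg _
      intro t ht
      rw [mem_Icc] at ht
      rw [mem_Ioc]
      omega
    have h3 : 0 ≤ ε1 * K' * (B : ℝ) ^ 2 := by positivity
    have h4 : A * C * (((L : ℝ) - (0 : ℕ)) * ((L : ℝ) - (0 : ℕ) + 2 * L)) =
        3 * (A * C) * (L : ℝ) ^ 2 := by
      push_cast
      ring
    rw [h4] at h1
    linarith
  · have hTL' : (L : ℝ) ≤ T := by exact_mod_cast hTL.le
    have hB1 : 0 ≤ Real.log B := Real.log_natCast_nonneg B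
    have h1 := hMC T σ hσ (hlog.trans (mul_le_mul_of_nonneg_right hTL' hB1)) hT hR
    have hfac : ∀ h ∈ Ioc P (P + L), (PN : ℤ) < 2 * A * h + b ∧ 2 * A * h + b ≤ PN + 2 * (A * L) := by
      intro h hh
      rw [mem_Ioc] at hh
      have e3 : (A : ℤ) * (P + 1) ≤ A * h :=
        mul_le_mul_of_nonneg_left (by exact_mod_cast hh.1) hA0
      have e4 : (A : ℤ) * h ≤ A * (P + L) :=
        mul_le_mul_of_nonneg_left (by exact_mod_cast hh.2) hA0
      constructor <;> linarith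
    have h2 : ∑ h ∈ Ioc P (P + L), |∑ t ∈ Icc 1 T, gb α σ c z B (2 * A * h + b) t| ≤
        ∑ b ∈ (Ioc B (4 * B)).filter (fun b : ℕ => (1 + δ) * (B : ℝ) ≤ (b : ℝ)),
          |∑ t ∈ Icc 1 T, Eu σ c z B ((t : ℤ) * (α * t + b))| := by
      have hinj : Set.InjOn (fun h : ℕ => (2 * A * h + b : ℤ).toNat) (Ioc P (P + L) : Set ℕ) := by
        intro x hx y hy hxy
        have e1 := hfac x (Finset.mem_coe.1 hx)
        have e2 := hfac y (Finset.mem_coe.1 hy)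
        simp only at hxy
        have e3 : (2 * A * x : ℤ) = 2 * A * y := by
          generalize (2 * A * x : ℤ) = w1 at *
          generalize (2 * A * y : ℤ) = w2 at *
          omega
        have e4 : (2 * (A : ℤ)) ≠ 0 := by omega
        have e5 := mul_left_cancel₀ e4 e3
        exact_mod_cast e5
      calc ∑ h ∈ Ioc P (P + L), |∑ t ∈ Icc 1 T, gb α σ c z B (2 * A * h + b) t|
          = ∑ b ∈ (Ioc P (P + L)).image (fun h : ℕ => (2 * A * h + b : ℤ).toNat),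
            |∑ t ∈ Icc 1 T, Eu σ c z B ((t : ℤ) * (α * t + b))| := by
            rw [Finset.sum_image hinj]
            refine Finset.sum_congr rfl fun h hh => ?_
            have e1 := hfac h hh
            have e2 : (((2 * A * h + b : ℤ).toNat : ℕ) : ℤ) = 2 * A * h + b :=
              Int.toNat_of_nonneg (by omega)
            unfold gb
            rw [e2]
        _ ≤ _ := by
            refine Finset.sum_le_sum_of_subset_of_nonneg ?_ fun _ _ _ => abs_nonneg _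
            intro v hv
            rw [mem_image] at hv
            obtain ⟨h, hh, rfl⟩ := hv
            have e1 := hfac h hh
            rw [mem_filter, mem_Ioc]
            obtain ⟨w, hw⟩ : ∃ w : ℤ, w = 2 * A * h + b := ⟨_, rfl⟩
            rw [← hw] at e1 ⊢
            have e5 : PN ≤ w.toNat := by omega
            refine ⟨?_, ?_⟩
            · push_cast at *
              have e6 : w ≤ ((PN + 2 * (A * L) : ℕ) : ℤ) := by
                push_cast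
                exact e1.2
              omega
            · have h3 : (PN : ℝ) ≤ (w.toNat : ℝ) := by exact_mod_cast e5
              linarith
    have h4 : (T : ℝ) ≤ K' * B := by exact_mod_cast hT
    have h5 : ε1 * ((B : ℝ) * T) ≤ ε1 * K' * (B : ℝ) ^ 2 := by
      calc ε1 * ((B : ℝ) * T) ≤ ε1 * ((B : ℝ) * (K' * B)) := by gcongr
        _ = ε1 * K' * (B : ℝ) ^ 2 := by ring
    have h6 : 0 ≤ 3 * (A * C) * (L : ℝ) ^ 2 := by positivity
    linarith

theorem rge_posg {A K B T : ℕ} (hT : T ≤ K * B) :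
    Rge (Polynomial.C (A : ℤ) * Polynomial.X) (3 * (A * K) + 15) B T := by
  intro u hu1 hu2
  have h1 : (u : ℤ) ≤ K * B := by exact_mod_cast hu2.trans hT
  have hA0 : (0 : ℤ) ≤ A := Int.natCast_nonneg _
  have h2 : (A : ℤ) * u ≤ A * (K * B) := mul_le_mul_of_nonneg_left h1 hA0
  have h3 : (0 : ℤ) ≤ A * u := by positivity
  have h4 : (0 : ℤ) ≤ B := Int.natCast_nonneg _
  rw [Polynomial.eval_mul, Polynomial.eval_C, Polynomial.eval_X]
  push_cast
  constructor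
  · linarith
  · linarith

theorem rge_negg {A K B T : ℕ} (hT : 2 * (A * T) ≤ B) :
    Rge (Polynomial.C (-(A : ℤ)) * Polynomial.X) (3 * (A * K) + 15) B T := by
  intro u hu1 hu2
  have h0 : A * u ≤ A * T := Nat.mul_le_mul_left _ hu2
  have h1 : 2 * ((A : ℤ) * u) ≤ B := by
    have : 2 * (A * u) ≤ B := by omega
    exact_mod_cast this
  have h2 : (0 : ℤ) ≤ (A : ℤ) * K * B := by positivity
  have h3 : (0 : ℤ) ≤ A * u := by positivity
  rw [Polynomial.eval_mul, Polynomial.eval_C, Polynomial.eval_X]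
  push_cast
  constructor
  · linarith
  · linarith

/-- the elementary facts about a block -/
theorem facts {A N H P L PN B T b0 K : ℕ} (hA : 1 ≤ A) (hN : 4 ≤ N)
    (hP1 : H ≤ P) (hP2 : P ≤ 3 * H) (hL1 : H ≤ N * L) (hL2 : N * L ≤ 2 * H)
    (g1 : 2 * (A * P) ≤ PN + b0) (g2 : PN ≤ 2 * (A * P) + b0)
    (h1 : 7 * A * N ^ 2 ≤ H) (h2 : A * K + 12 * A ≤ H) (hb : b0 * N ≤ H)
    (hB : B = PN * N / (N + 1)) (hT : T = B / (2 * A)) :
    H ≤ B ∧ B ≤ PN ∧ B ≤ 7 * (A * H) ∧ B ≤ L ^ 2 ∧ T ≤ P ∧ 2 * (A * T) ≤ B ∧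
    4 * PN < 5 * (B + 1) ∧ 2 * (A * L) ≤ A * P ∧ A * (P + L) ≤ PN ∧ PN + 2 * (A * L) ≤ 4 * B ∧
    (N + 1) * B ≤ PN * N ∧ P * N + L * N < T * N + 7 * H ∧ 2 * L ≤ H ∧
    A * (K * B) + A * L + PN + 2 * (A * L) ≤ B ^ 2 ∧ 2 * PN + 2 * (A * L) ≤ B ^ 2 := by
  have fB1 : (N + 1) * B ≤ PN * N := by
    rw [hB]
    exact Nat.mul_div_le _ _
  have fB2 : PN * N < (N + 1) * (B + 1) := by
    rw [hB]
    exact Nat.lt_mul_div_succ _ (by omega)
  have fA : H ≤ A * H := Nat.le_mul_of_pos_left _ hA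
  have fAP : A * H ≤ A * P := Nat.mul_le_mul_left _ hP1
  have fAP2 : A * P ≤ 3 * (A * H) := by
    calc A * P ≤ A * (3 * H) := Nat.mul_le_mul_left _ hP2
      _ = 3 * (A * H) := by ring
  have f4b : 4 * b0 ≤ H := by
    calc 4 * b0 = b0 * 4 := by ring
      _ ≤ b0 * N := Nat.mul_le_mul_left _ hN
      _ ≤ H := hb
  have f4L : 2 * L ≤ H := by
    have : 4 * L ≤ N * L := Nat.mul_le_mul_right _ hN
    omega
  have f7 : 7 * N ^ 2 ≤ H := by nlinarith
  have fNH : 7 * N ≤ H := by nlinarith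
  have f12 : 12 * A ≤ H := by omega
  have fHB : H ≤ B := by
    by_contra hcon
    have e1 : (N + 1) * (B + 1) ≤ (N + 1) * H := Nat.mul_le_mul_left _ (by omega)
    have e2 : 2 * (H * N) ≤ PN * N + b0 * N := by
      calc 2 * (H * N) = 2 * H * N := by ring
        _ ≤ (PN + b0) * N := Nat.mul_le_mul_right _ (by omega)
        _ = PN * N + b0 * N := by ring
    have e3 : 4 * H ≤ H * N := by nlinarith
    have e4 : (N + 1) * H = H * N + H := by ring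
    omega
  have fB4 : B ≤ PN := by
    have e1 : (N + 1) * B ≤ (N + 1) * PN := by nlinarith
    exact Nat.le_of_mul_le_mul_left e1 (by omega)
  have fBH : B ≤ 7 * (A * H) := by omega
  have fBL : B ≤ L ^ 2 := by
    have e1 : H * H ≤ (N * L) * (N * L) := Nat.mul_le_mul hL1 hL1
    have e2 : 7 * A * N ^ 2 * H ≤ H * H := Nat.mul_le_mul_right _ h1
    have e3 : N ^ 2 * (7 * (A * H)) ≤ N ^ 2 * L ^ 2 := by
      calc N ^ 2 * (7 * (A * H)) = 7 * A * N ^ 2 * H := by ring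
        _ ≤ H * H := e2
        _ ≤ (N * L) * (N * L) := e1
        _ = N ^ 2 * L ^ 2 := by ring
    have e4 : 7 * (A * H) ≤ L ^ 2 := Nat.le_of_mul_le_mul_left e3 (by positivity)
    omega
  have fT1 : 2 * A * T ≤ B := by
    rw [hT]
    exact Nat.mul_div_le _ _
  have fT2 : B < 2 * A * (T + 1) := by
    rw [hT]
    exact Nat.lt_mul_div_succ _ (by omega)
  have fTP : T ≤ P := by
    have e1 : (2 * A * (N + 1)) * T ≤ (2 * A * (N + 1)) * P := by
      calc (2 * A * (N + 1)) * T = (N + 1) * (2 * A * T) := by ring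
        _ ≤ (N + 1) * B := Nat.mul_le_mul_left _ fT1
        _ ≤ PN * N := fB1
        _ ≤ (2 * (A * P) + b0) * N := Nat.mul_le_mul_right _ g2
        _ = 2 * (A * P) * N + b0 * N := by ring
        _ ≤ 2 * (A * P) * N + 2 * (A * P) := by omega
        _ = (2 * A * (N + 1)) * P := by ring
    exact Nat.le_of_mul_le_mul_left e1 (by positivity)
  have f45 : 4 * PN < 5 * (B + 1) := by
    have e1 : N * (4 * PN) < N * (5 * (B + 1)) := by
      calc N * (4 * PN) = 4 * (PN * N) := by ring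
        _ < 4 * ((N + 1) * (B + 1)) := by omega
        _ = (4 * N + 4) * (B + 1) := by ring
        _ ≤ (5 * N) * (B + 1) := Nat.mul_le_mul_right _ (by omega)
        _ = N * (5 * (B + 1)) := by ring
    exact Nat.lt_of_mul_lt_mul_left e1
  have fAL : 2 * (A * L) ≤ A * P := by
    calc 2 * (A * L) = A * (2 * L) := by ring
      _ ≤ A * P := Nat.mul_le_mul_left _ (by omega)
  have fAL2 : 2 * (A * L) ≤ A * H := by
    calc 2 * (A * L) = A * (2 * L) := by ring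
      _ ≤ A * H := Nat.mul_le_mul_left _ f4L
  have fAPL : A * (P + L) ≤ PN := by
    have e1 : A * (P + L) = A * P + A * L := by ring
    omega
  have fB5 : 7 * 16 ≤ H := by nlinarith
  have f4B : PN + 2 * (A * L) ≤ 4 * B := by omega
  have fL' : P * N + L * N < T * N + 7 * H := by
    have e1 : 2 * (A * P) * N ≤ PN * N + b0 * N := by
      calc 2 * (A * P) * N ≤ (PN + b0) * N := Nat.mul_le_mul_right _ g1
        _ = PN * N + b0 * N := by ring
    have e2 : (N + 1) * (B + 1) ≤ (N + 1) * (2 * A * (T + 1)) := Nat.mul_le_mul_left _ (by omega)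
    have e3 : 2 * A * (P * N) < 2 * A * ((N + 1) * (T + 1) + H) := by
      calc 2 * A * (P * N) = 2 * (A * P) * N := by ring
        _ ≤ PN * N + b0 * N := e1
        _ < (N + 1) * (B + 1) + H := by omega
        _ ≤ (N + 1) * (2 * A * (T + 1)) + H := by omega
        _ ≤ (N + 1) * (2 * A * (T + 1)) + 2 * (A * H) := by omega
        _ = 2 * A * ((N + 1) * (T + 1) + H) := by ring
    have e4 : P * N < (N + 1) * (T + 1) + H := Nat.lt_of_mul_lt_mul_left e3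
    have e5 : (N + 1) * (T + 1) = T * N + N + T + 1 := by ring
    have e6 : L * N = N * L := mul_comm _ _
    omega
  have fHH : A * (K * B) + 12 * (A * B) ≤ B ^ 2 := by
    calc A * (K * B) + 12 * (A * B) = (A * K + 12 * A) * B := by ring
      _ ≤ B * B := Nat.mul_le_mul_right _ (by omega)
      _ = B ^ 2 := by ring
  have fAB : A * H ≤ A * B := Nat.mul_le_mul_left _ fHB
  have fBA : B ≤ A * B := Nat.le_mul_of_pos_left _ hA
  refine ⟨fHB, fB4, fBH, fBL, fTP, by rw [← mul_assoc]; exact fT1, f45, fAL, fAPL, f4B, fB1, fL',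
    f4L, by omega, by omega⟩

/-- one block -/
theorem blockg {A K N z H : ℕ} {b : ℤ} {C Cz ε : ℝ} {c τ : ℤ} (hA : 1 ≤ A) (hC : 0 < C)
    (hK : 1 ≤ K) (hN : 4 ≤ N)
    (hε : 0 < ε) (hNC : 1000 * (A * C) ≤ ε * N) (hτ : τ = 1 ∨ τ = -1)
    (hcK : c.natAbs ≤ K * H ^ 2)
    (hup : ∀ B : ℕ, H ≤ B → c.natAbs ≤ B ^ 3 → UpH C z B c)
    (hMC : ∀ α : ℤ, (α = A ∨ α = -A) → ∀ B : ℕ, H ≤ B → c.natAbs ≤ (3 * (A * K) + 15) * B ^ 2 →
      MCH (3 * (A * K) + 15) (ε / (588 * (A : ℝ) ^ 2 * ((3 * (A * K) + 15 : ℕ) : ℝ) * N)) (1 / N)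
        z B c α)
    (hloc : ∀ (τ c : ℤ) (h M1 M2 : ℕ), M1 ≤ M2 →
      |∑ m ∈ Ioc M1 M2, lz z (Vg A b τ c h m) - ((M2 : ℝ) - M1) * Sqg A b τ c h z| ≤ Cz)
    (h1 : 7 * A * N ^ 2 ≤ H) (h2 : A * K + 12 * A ≤ H) (hb : b.natAbs * N ≤ H)
    (h3 : 7 * (A : ℝ) * N ≤ Real.log H)
    (h4 : (Real.log (K * (H : ℝ) ^ 2) + (VW 0 z)⁻¹) +
      (√(7 * (A * H : ℝ)) + 1 + b.natAbs) * (Real.log (7 * (A * H : ℝ)) + (VW 0 z)⁻¹) +
      (Cz + b.natAbs * (2 * (VW 0 z)⁻¹ + Cz)) ≤ ε / 8 * H)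
    {M P L : ℕ} (hM : M ≤ K * H) (hP1 : H ≤ P) (hP2 : P ≤ 3 * H) (hL1 : H ≤ N * L)
    (hL2 : N * L ≤ 2 * H) :
    ∑ h ∈ Ioc P (P + L), |∑ m ∈ Icc 1 M, lp (Vg A b τ c h m) -
      Sqg A b τ c h z * (((Icc 1 M).filter (fun m : ℕ => 2 ≤ Vg A b τ c h m)).card : ℝ)| ≤
      ε / N * (H : ℝ) ^ 2 := by
  obtain ⟨b0, hb0⟩ : ∃ b0, b0 = b.natAbs := ⟨_, rfl⟩
  rw [← hb0] at hb h4
  have hbl : -(b0 : ℤ) ≤ b := by omega
  have hbu : b ≤ (b0 : ℤ) := by omega
  have hbH : b0 ≤ H := by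
    have : b0 * 1 ≤ b0 * N := Nat.mul_le_mul_left _ (by omega)
    omega
  have hAPP : P ≤ A * P := Nat.le_mul_of_pos_left _ hA
  obtain ⟨PN, hPN⟩ : ∃ PN : ℕ, (PN : ℤ) = 2 * A * P + b := by
    refine ⟨(2 * A * P + b : ℤ).toNat, Int.toNat_of_nonneg ?_⟩
    have e1 : (P : ℤ) ≤ A * P := by exact_mod_cast hAPP
    have e2 : (b0 : ℤ) ≤ P := by
      have : b0 ≤ P := hbH.trans hP1
      exact_mod_cast this
    linarith
  have g1 : 2 * (A * P) ≤ PN + b0 := by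
    have : (2 : ℤ) * (A * P) ≤ PN + b0 := by
      rw [hPN]
      linarith
    exact_mod_cast this
  have g2 : PN ≤ 2 * (A * P) + b0 := by
    have : (PN : ℤ) ≤ 2 * (A * P) + b0 := by
      rw [hPN]
      linarith
    exact_mod_cast this
  obtain ⟨B, hB⟩ : ∃ B, B = PN * N / (N + 1) := ⟨_, rfl⟩
  obtain ⟨T, hT⟩ : ∃ T, T = B / (2 * A) := ⟨_, rfl⟩
  obtain ⟨fHB, fB4, fBH, cBL, fTP, fT1, f45, fAL, fAPL, f4B, fB1, fL', f4L, fS1, fS2⟩ :=
    facts hA hN hP1 hP2 hL1 hL2 g1 g2 h1 h2 hb hB hT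
  have fH0 : 12 ≤ H := by
    have : 12 ≤ 12 * A := by omega
    omega
  have fL0 : L ≤ H := by omega
  have fL1 : 1 ≤ L := by
    by_contra hcon
    have : L = 0 := by omega
    rw [this] at hL1
    omega
  have n1 : L ≤ A * L := Nat.le_mul_of_pos_left _ hA
  have n2 : T ≤ A * T := Nat.le_mul_of_pos_left _ hA
  have n3 : A * (P + L) = A * P + A * L := by ring
  -- real versions
  have hHr : (1 : ℝ) ≤ H := by
    have : 1 ≤ H := by omega
    exact_mod_cast this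
  have hH0 : (0 : ℝ) < H := by linarith
  have hNr : (4 : ℝ) ≤ N := by exact_mod_cast hN
  have hN0 : (0 : ℝ) < N := by linarith
  have hAr : (1 : ℝ) ≤ A := by exact_mod_cast hA
  have hA0 : (0 : ℝ) < A := by linarith
  have hBr : (B : ℝ) ≤ 7 * (A * H) := by exact_mod_cast fBH
  have hHB : (H : ℝ) ≤ B := by exact_mod_cast fHB
  have hB0 : (0 : ℝ) < B := by linarith
  have hL1r : (H : ℝ) ≤ N * L := by exact_mod_cast hL1
  have hL2r : (N : ℝ) * L ≤ 2 * H := by exact_mod_cast hL2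
  have hLr : (L : ℝ) ≤ 2 * H / N := by
    rw [le_div_iff₀ hN0]
    linarith
  have hL0r : (0 : ℝ) ≤ L := Nat.cast_nonneg _
  obtain ⟨L', hL'⟩ : ∃ L', L' = P + L - T := ⟨_, rfl⟩
  have hL'r : (L' : ℝ) = (P : ℝ) + L - T := by
    rw [hL', Nat.cast_sub (by omega)]
    push_cast
    ring
  have hL'2 : (L' : ℝ) ≤ 7 * H / N := by
    rw [le_div_iff₀ hN0, hL'r]
    have e3 : (P : ℝ) * N + L * N < T * N + 7 * H := by exact_mod_cast fL'
    linarith
  have hL'L : (L : ℝ) ≤ L' := by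
    rw [hL'r]
    have e6 : (T : ℝ) ≤ P := by exact_mod_cast fTP
    linarith
  -- conditions
  have cc3 : c.natAbs ≤ B ^ 3 := by
    have e0 : K ≤ A * K := Nat.le_mul_of_pos_left _ hA
    have e1 : K * H ^ 2 ≤ B * B ^ 2 :=
      Nat.mul_le_mul (by omega) (Nat.pow_le_pow_left fHB 2)
    calc c.natAbs ≤ K * H ^ 2 := hcK
      _ ≤ B * B ^ 2 := e1
      _ = B ^ 3 := by ring
  have cc2 : c.natAbs ≤ (3 * (A * K) + 15) * B ^ 2 := by
    have e0 : K ≤ A * K := Nat.le_mul_of_pos_left _ hA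
    have e1 : K * H ^ 2 ≤ (3 * (A * K) + 15) * B ^ 2 :=
      Nat.mul_le_mul (by omega) (Nat.pow_le_pow_left fHB 2)
    exact hcK.trans e1
  have hupB := hup B fHB cc3
  have hMB : M ≤ K * B := hM.trans (Nat.mul_le_mul_left _ fHB)
  have hAMB : A * M ≤ A * (K * B) := Nat.mul_le_mul_left _ hMB
  have hlogB : 7 * (A : ℝ) * N ≤ Real.log B := h3.trans (Real.log_le_log hH0 hHB)
  have cLog : (B : ℝ) ≤ (L : ℝ) * Real.log B := by
    have e1 : (L : ℝ) * (7 * A * N) ≤ L * Real.log B := mul_le_mul_of_nonneg_left hlogB hL0r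
    have e2 : 7 * (A : ℝ) * H ≤ 7 * (A : ℝ) * (N * L) :=
      mul_le_mul_of_nonneg_left hL1r (by positivity)
    have e3 : 7 * (A : ℝ) * (N * L) = (L : ℝ) * (7 * A * N) := by ring
    linarith
  have cδ : (1 + 1 / (N : ℝ)) * (B : ℝ) ≤ PN := by
    have e1 : ((N : ℝ) + 1) * B ≤ PN * N := by exact_mod_cast fB1
    have e2 : (1 + 1 / (N : ℝ)) * (B : ℝ) = ((N : ℝ) + 1) * B / N := by
      field_simp
    rw [e2, div_le_iff₀ hN0]
    exact e1
  have hnτ : -τ = 1 ∨ -τ = -1 := by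
    rcases hτ with rfl | rfl
    · exact Or.inr rfl
    · exact Or.inl (by norm_num)
  obtain ⟨K', hK'⟩ : ∃ K', K' = 3 * (A * K) + 15 := ⟨_, rfl⟩
  obtain ⟨ε1, hε1⟩ : ∃ ε1, ε1 = ε / (588 * (A : ℝ) ^ 2 * ((3 * (A * K) + 15 : ℕ) : ℝ) * N) :=
    ⟨_, rfl⟩
  rw [← hε1] at hMC
  rw [← hK'] at hMC hε1 cc2
  have hK'0 : (0 : ℝ) < (K' : ℝ) := by
    have : 0 < K' := by omega
    exact_mod_cast this
  have hε10 : 0 ≤ ε1 := by
    rw [hε1]
    positivity
  have hBK : B ≤ K' * B := Nat.le_mul_of_pos_left _ (by omega)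
  have hKAK : K ≤ A * K := Nat.le_mul_of_pos_left _ hA
  have hKK : K * B ≤ K' * B := Nat.mul_le_mul_right _ (by omega)
  have hmin := min_le_left T (P + L - M)
  have hAmin : A * min T (P + L - M) ≤ A * T := Nat.mul_le_mul_left _ hmin
  -- the main terms
  have m1 := mainbg (σ := τ) (P := P) (L := L) (b := b) (T := M - (P + L)) hε10 hupB
    (hMC A (Or.inl rfl) B fHB cc2) hτ hA hPN (Or.inl rfl) cBL (by omega) (by omega) cδ fB4 f4B cLog
    (by omega) (by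
      rw [hK']
      exact rge_posg (by omega)) hC.le
  have m2 := mainbg (σ := -τ) (P := P) (L := L) (b := b) (T := T) hε10 hupB
    (hMC (-A) (Or.inr rfl) B fHB cc2) hnτ hA hPN (Or.inr rfl) cBL (by omega) (by omega) cδ fB4 f4B
    cLog (by omega) (by
      rw [hK']
      exact rge_negg fT1) hC.le
  have m3 := mainbg (σ := -τ) (P := P) (L := L) (b := b) (T := min T (P + L - M)) hε10 hupB
    (hMC (-A) (Or.inr rfl) B fHB cc2) hnτ hA hPN (Or.inr rfl) cBL (by omega) (by omega) cδ fB4 f4B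
    cLog (by omega) (by
      rw [hK']
      exact rge_negg (by omega)) hC.le
  -- the other terms
  have hx1 : A * (M - (P + L) + L) ≤ A * (K * B) + A * L := by
    calc A * (M - (P + L) + L) ≤ A * (M + L) := Nat.mul_le_mul_left _ (by omega)
      _ = A * M + A * L := by ring
      _ ≤ A * (K * B) + A * L := by omega
  have hx2 : A * (P - M + L) ≤ A * (P + L) := Nat.mul_le_mul_left _ (by omega)
  have b1 := blkUpg hupB (α := A) (b := b) (P := P) (L := L) (X1 := M - (P + L))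
    (X2 := M - (P + L) + L) hτ hA hPN (by omega) (by omega) cBL (by omega) (Or.inl rfl)
  have b2 := blkUpg hupB (α := -A) (b := b) (P := P) (L := L) (X1 := P - M) (X2 := P - M + L) hnτ
    hA hPN (by omega) (by omega) cBL (by omega) (Or.inr ⟨rfl, by omega⟩)
  have b3 := blkUpg hupB (α := -A) (b := b) (P := P) (L := L) (X1 := T) (X2 := P + L) hnτ
    hA hPN (by omega) (by omega) cBL (by omega) (Or.inr ⟨rfl, by omega⟩)
  have b1' : ∑ h ∈ Ioc P (P + L), ∑ t ∈ Ioc (M - (P + L)) (M - (P + L) + L),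
      |gb A τ c z B (2 * A * h + b) t| ≤ 3 * (A * C) * (L : ℝ) ^ 2 := by
    refine b1.trans (le_of_eq ?_)
    push_cast
    ring
  have b2' : ∑ h ∈ Ioc P (P + L), ∑ t ∈ Ioc (P - M) (P - M + L),
      |gb (-A) (-τ) c z B (2 * A * h + b) t| ≤ 3 * (A * C) * (L : ℝ) ^ 2 := by
    refine b2.trans (le_of_eq ?_)
    push_cast
    ring
  have b3' : ∑ h ∈ Ioc P (P + L), ∑ t ∈ Ioc T (P + L),
      |gb (-A) (-τ) c z B (2 * A * h + b) t| ≤ (A * C) * ((L' : ℝ) * (L' + 2 * L)) := by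
    refine b3.trans (le_of_eq ?_)
    rw [hL'r]
    push_cast
    ring
  -- the small terms
  have hW0 : 0 < (VW 0 z)⁻¹ := inv_pos.2 (Pool.Agent.N519.QU.VW_pos 0 z)
  have hKr : (1 : ℝ) ≤ K := by exact_mod_cast hK
  have hKH1 : (1 : ℝ) ≤ K * (H : ℝ) ^ 2 := by
    have : (1 : ℝ) ≤ (H : ℝ) ^ 2 := one_le_pow₀ hHr
    nlinarith
  have hEBc : |EB z B c| ≤ Real.log (K * (H : ℝ) ^ 2) + (VW 0 z)⁻¹ := by
    unfold EB
    split_ifs with hcB
    · apply EE_le _ hKH1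
      have e1 : c ≤ (c.natAbs : ℤ) := Int.le_natAbs
      have e2 : (c : ℝ) ≤ ((c.natAbs : ℕ) : ℝ) := by
        rw [← Int.cast_natCast (R := ℝ) c.natAbs]
        exact (Int.cast_le (R := ℝ)).2 e1
      have e3 : ((c.natAbs : ℕ) : ℝ) ≤ K * (H : ℝ) ^ 2 := by exact_mod_cast hcK
      linarith
    · rw [abs_zero]
      have := Real.log_nonneg hKH1
      linarith
  have hb0r : (0 : ℝ) ≤ b0 := Nat.cast_nonneg _
  have hsm : ((Nat.sqrt B : ℝ) + 1 + b0) * (Real.log B + (VW 0 z)⁻¹) ≤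
      (√(7 * (A * H : ℝ)) + 1 + b0) * (Real.log (7 * (A * H : ℝ)) + (VW 0 z)⁻¹) := by
    have e1 : (Nat.sqrt B : ℝ) ≤ √(7 * (A * H : ℝ)) :=
      (Real.nat_sqrt_le_real_sqrt).trans (Real.sqrt_le_sqrt hBr)
    have e2 : Real.log B ≤ Real.log (7 * (A * H : ℝ)) := Real.log_le_log hB0 hBr
    have e3 : 0 ≤ Real.log B := Real.log_natCast_nonneg B
    have e4 : (0 : ℝ) ≤ Nat.sqrt B := Nat.cast_nonneg _
    exact mul_le_mul (by linarith) (by linarith) (by linarith) (by linarith)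
  have hB2' : 2 ≤ B := by omega
  obtain ⟨E, hE⟩ : ∃ E, E = |EB z B c| + (((Nat.sqrt B : ℝ) + 1 + b0) *
      (Real.log B + (VW 0 z)⁻¹) + (Cz + b0 * (2 * (VW 0 z)⁻¹ + Cz))) := ⟨_, rfl⟩
  have hE' : E ≤ ε / 8 * H := by
    rw [hE]
    linarith
  -- the sum
  have hsum : ∑ h ∈ Ioc P (P + L), |∑ m ∈ Icc 1 M, lp (Vg A b τ c h m) -
      Sqg A b τ c h z * (((Icc 1 M).filter (fun m : ℕ => 2 ≤ Vg A b τ c h m)).card : ℝ)| ≤
      (∑ h ∈ Ioc P (P + L), |∑ t ∈ Icc 1 (M - (P + L)), gb A τ c z B (2 * A * h + b) t|) +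
      (∑ h ∈ Ioc P (P + L), |∑ t ∈ Icc 1 T, gb (-A) (-τ) c z B (2 * A * h + b) t|) +
      (∑ h ∈ Ioc P (P + L),
        |∑ t ∈ Icc 1 (min T (P + L - M)), gb (-A) (-τ) c z B (2 * A * h + b) t|) +
      (∑ h ∈ Ioc P (P + L), ∑ t ∈ Ioc (M - (P + L)) (M - (P + L) + L),
        |gb A τ c z B (2 * A * h + b) t|) +
      (∑ h ∈ Ioc P (P + L), ∑ t ∈ Ioc (P - M) (P - M + L),
        |gb (-A) (-τ) c z B (2 * A * h + b) t|) +
      2 * (∑ h ∈ Ioc P (P + L), ∑ t ∈ Ioc T (P + L),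
        |gb (-A) (-τ) c z B (2 * A * h + b) t|) + L * E := by
    have hE2 : (L : ℝ) * E = ∑ _h ∈ Ioc P (P + L), E := by
      rw [Finset.sum_const, Nat.card_Ioc, nsmul_eq_mul, Nat.add_sub_cancel_left]
    rw [hE2, Finset.mul_sum, ← Finset.sum_add_distrib, ← Finset.sum_add_distrib,
      ← Finset.sum_add_distrib, ← Finset.sum_add_distrib, ← Finset.sum_add_distrib,
      ← Finset.sum_add_distrib]
    refine Finset.sum_le_sum fun h hh => ?_
    have e1 := D_hg hA hloc hτ c h M B hB2'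
    have e2 := per_hg A b τ c z B P L M T h hh fTP
    rw [← hb0] at e1
    rw [hE]
    linarith
  refine hsum.trans ?_
  have q1 : (L : ℝ) ^ 2 ≤ 4 * (H : ℝ) ^ 2 / N ^ 2 := by
    calc (L : ℝ) ^ 2 ≤ (2 * H / N) ^ 2 := pow_le_pow_left₀ hL0r hLr 2
      _ = 4 * (H : ℝ) ^ 2 / N ^ 2 := by ring
  have q2 : (L' : ℝ) * (L' + 2 * L) ≤ 77 * (H : ℝ) ^ 2 / N ^ 2 := by
    have hL'0 : (0 : ℝ) ≤ L' := Nat.cast_nonneg _
    calc (L' : ℝ) * (L' + 2 * L) ≤ (7 * H / N) * (7 * H / N + 2 * (2 * H / N)) := by gcongr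
      _ = 77 * (H : ℝ) ^ 2 / N ^ 2 := by ring
  have q3 : ε1 * (K' : ℝ) * (B : ℝ) ^ 2 ≤ ε / (12 * N) * (H : ℝ) ^ 2 := by
    calc ε1 * (K' : ℝ) * (B : ℝ) ^ 2 ≤ ε1 * (K' : ℝ) * (7 * (A * H)) ^ 2 := by
          gcongr
      _ = ε / (12 * N) * (H : ℝ) ^ 2 := by
          rw [hε1]
          field_simp
          ring
  have hAC : 0 ≤ A * C := by positivity
  have q4 : A * C * (H : ℝ) ^ 2 / N ^ 2 ≤ ε / (1000 * N) * (H : ℝ) ^ 2 := by
    have e1 : A * C * (H : ℝ) ^ 2 / N ^ 2 = A * C / N ^ 2 * (H : ℝ) ^ 2 := by ring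
    rw [e1]
    apply mul_le_mul_of_nonneg_right _ (by positivity)
    rw [div_le_div_iff₀ (by positivity) (by positivity)]
    nlinarith
  have q5 : (L : ℝ) * E ≤ ε / (4 * N) * (H : ℝ) ^ 2 := by
    have hEpos : 0 ≤ ε / 8 * H := by positivity
    calc (L : ℝ) * E ≤ L * (ε / 8 * H) := mul_le_mul_of_nonneg_left hE' hL0r
      _ ≤ (2 * H / N) * (ε / 8 * H) := mul_le_mul_of_nonneg_right hLr hEpos
      _ = ε / (4 * N) * (H : ℝ) ^ 2 := by ring
  have q6 : (A * C) * (L : ℝ) ^ 2 ≤ 4 * (A * C * (H : ℝ) ^ 2 / N ^ 2) := by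
    calc (A * C) * (L : ℝ) ^ 2 ≤ (A * C) * (4 * (H : ℝ) ^ 2 / N ^ 2) :=
          mul_le_mul_of_nonneg_left q1 hAC
      _ = _ := by ring
  have q7 : (A * C) * ((L' : ℝ) * (L' + 2 * L)) ≤ 77 * (A * C * (H : ℝ) ^ 2 / N ^ 2) := by
    calc (A * C) * ((L' : ℝ) * (L' + 2 * L)) ≤ (A * C) * (77 * (H : ℝ) ^ 2 / N ^ 2) :=
          mul_le_mul_of_nonneg_left q2 hAC
      _ = _ := by ring
  have r1 : ε / (12 * N) * (H : ℝ) ^ 2 = (ε / N * (H : ℝ) ^ 2) / 12 := by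
    field_simp
  have r2 : ε / (1000 * N) * (H : ℝ) ^ 2 = (ε / N * (H : ℝ) ^ 2) / 1000 := by
    field_simp
  have r3 : ε / (4 * N) * (H : ℝ) ^ 2 = (ε / N * (H : ℝ) ^ 2) / 4 := by
    field_simp
  rw [r1] at q3
  rw [r2] at q4
  rw [r3] at q5
  have r4 : 0 ≤ ε / N * (H : ℝ) ^ 2 := by positivity
  linarith

/-- the small terms -/
theorem ev_smallg (A b0 K : ℕ) (hA : 1 ≤ A) (hK : 1 ≤ K) (ε W Cz : ℝ) (hε : 0 < ε) (hW : 0 ≤ W) :
    ∀ᶠ H : ℕ in Filter.atTop, (Real.log (K * (H : ℝ) ^ 2) + W) +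
      (√(7 * (A * H : ℝ)) + 1 + b0) * (Real.log (7 * (A * H : ℝ)) + W) +
      (Cz + b0 * (2 * W + Cz)) ≤ ε / 8 * H := by
  obtain ⟨Q, hQ⟩ : ∃ Q : ℝ, Q = 2 * A + b0 + 1 := ⟨_, rfl⟩
  have hAr : (1 : ℝ) ≤ A := by exact_mod_cast hA
  have hb0 : (0 : ℝ) ≤ b0 := Nat.cast_nonneg _
  have hQ1 : 1 ≤ Q := by
    rw [hQ]
    linarith
  have hQ0 : 0 < Q := by linarith
  filter_upwards [ev_small K hK (ε / Q) (W + 2 * A) |Cz + b0 * (2 * W + Cz)| (by positivity),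
    Filter.eventually_ge_atTop 1] with H h1 hH
  have hHr : (1 : ℝ) ≤ H := by exact_mod_cast hH
  have hKr : (1 : ℝ) ≤ K := by exact_mod_cast hK
  obtain ⟨X, hX⟩ : ∃ X, X = Real.log (K * (H : ℝ) ^ 2) + (W + 2 * A) := ⟨_, rfl⟩
  obtain ⟨Y, hY⟩ : ∃ Y, Y = Real.log (6 * (H : ℝ)) + (W + 2 * A) := ⟨_, rfl⟩
  obtain ⟨S, hS⟩ : ∃ S, S = √(6 * (H : ℝ)) := ⟨_, rfl⟩
  have hKH1 : (1 : ℝ) ≤ K * (H : ℝ) ^ 2 := by
    have : (1 : ℝ) ≤ (H : ℝ) ^ 2 := one_le_pow₀ hHr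
    nlinarith
  have hX0 : 0 ≤ X := by
    have := Real.log_nonneg hKH1
    rw [hX]
    linarith
  have hY0 : 0 ≤ Y := by
    have := Real.log_nonneg (show (1 : ℝ) ≤ 6 * H by linarith)
    rw [hY]
    linarith
  have hS0 : 0 ≤ S := by
    rw [hS]
    exact Real.sqrt_nonneg _
  have e1 : √(7 * (A * H : ℝ)) ≤ 2 * A * S := by
    rw [hS, Real.sqrt_le_left (by positivity), mul_pow, Real.sq_sqrt (by positivity)]
    nlinarith [mul_pos (show (0 : ℝ) < A by linarith) (show (0 : ℝ) < H by linarith)]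
  have e2 : Real.log (7 * (A * H : ℝ)) ≤ Real.log (6 * (H : ℝ)) + 2 * A := by
    have e3 : Real.log (7 * (A * H : ℝ)) ≤ Real.log ((6 * H) * (2 * A) : ℝ) := by
      apply Real.log_le_log (by positivity)
      nlinarith [mul_pos (show (0 : ℝ) < A by linarith) (show (0 : ℝ) < H by linarith)]
    rw [Real.log_mul (x := 6 * (H : ℝ)) (y := 2 * (A : ℝ)) (by positivity) (by positivity)] at e3
    have e4 : Real.log (2 * A : ℝ) ≤ 2 * A := (Real.log_le_self (by positivity))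
    linarith
  have e3 : Real.log (7 * (A * H : ℝ)) + W ≤ Y := by
    rw [hY]
    linarith
  have e4 : (√(7 * (A * H : ℝ)) + 1 + b0) ≤ Q * (S + 1) := by
    rw [hQ]
    nlinarith
  have e5 : (√(7 * (A * H : ℝ)) + 1 + b0) * (Real.log (7 * (A * H : ℝ)) + W) ≤ Q * (S + 1) * Y := by
    have h6 : 0 ≤ Q * (S + 1) := by positivity
    calc (√(7 * (A * H : ℝ)) + 1 + b0) * (Real.log (7 * (A * H : ℝ)) + W)
        ≤ (√(7 * (A * H : ℝ)) + 1 + b0) * Y := mul_le_mul_of_nonneg_left e3 (by positivity)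
      _ ≤ Q * (S + 1) * Y := mul_le_mul_of_nonneg_right e4 hY0
  have e6 : Real.log (K * (H : ℝ) ^ 2) + W ≤ Q * X := by
    have : X ≤ Q * X := by nlinarith
    rw [hX] at this ⊢
    linarith
  have e7 : Cz + b0 * (2 * W + Cz) ≤ Q * |Cz + b0 * (2 * W + Cz)| := by
    have g1 := le_abs_self (Cz + b0 * (2 * W + Cz))
    have g2 := abs_nonneg (Cz + b0 * (2 * W + Cz))
    nlinarith
  rw [← hX, ← hY, ← hS] at h1
  have e8 : Q * (X + (S + 1) * Y + |Cz + b0 * (2 * W + Cz)|) ≤ Q * (ε / Q / 8 * H) :=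
    mul_le_mul_of_nonneg_left h1 hQ0.le
  have e9 : Q * (ε / Q / 8 * H) = ε / 8 * H := by
    field_simp
  rw [e9] at e8
  linarith

theorem t_BLg (hMC : ∀ (s0 : ℕ) (a : ℤ), a ≠ 0 → S_MCu s0 a) (a b : ℤ) (ha : 1 ≤ a)
    (hLOC : S_LOCg a b) (_hAVS : S_AVSg a b) (hU0 : S_U0u) (hMER : S_MER) (s0 : ℕ) :
    S_BLg s0 a b := by
  obtain ⟨A, rfl⟩ := Int.eq_ofNat_of_zero_le (show (0 : ℤ) ≤ a by omega)
  have hA : 1 ≤ A := by exact_mod_cast ha
  have hAr : (1 : ℝ) ≤ A := by exact_mod_cast hA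
  intro K ε hK hε
  obtain ⟨C, hC, hup⟩ := up hU0 hMER
  obtain ⟨N0, hN0⟩ := exists_nat_ge (1000 * (A * C) / ε)
  obtain ⟨N, hN⟩ : ∃ N, N = N0 + 4 := ⟨_, rfl⟩
  have hN2 : 4 ≤ N := by omega
  have hNr : (0 : ℝ) < N := by
    have : 0 < N := by omega
    exact_mod_cast this
  have hNC : 1000 * (A * C) ≤ ε * N := by
    have e1 : (N0 : ℝ) ≤ N := by
      have : N0 ≤ N := by omega
      exact_mod_cast this
    have e2 : 1000 * (A * C) / ε ≤ N := hN0.trans e1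
    rw [div_le_iff₀ hε] at e2
    linarith
  have hK'0 : (0 : ℝ) < ((3 * (A * K) + 15 : ℕ) : ℝ) := by
    have : 0 < 3 * (A * K) + 15 := by omega
    exact_mod_cast this
  have hε1 : 0 < ε / (588 * (A : ℝ) ^ 2 * ((3 * (A * K) + 15 : ℕ) : ℝ) * N) := by positivity
  have hδ : 0 < 1 / (N : ℝ) := by positivity
  obtain ⟨z1, hz1⟩ := hMC s0 (A : ℤ) (by omega) (3 * (A * K) + 15) _ _ (by omega) hε1 hδ
  obtain ⟨z2, hz2⟩ := hMC s0 (-(A : ℤ)) (by omega) (3 * (A * K) + 15) _ _ (by omega) hε1 hδ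
  refine ⟨max (max z1 z2) 2, fun z hz => ?_⟩
  have g1 : z1 ≤ z := (le_max_left _ _).trans ((le_max_left _ _).trans hz)
  have g2 : z2 ≤ z := (le_max_right _ _).trans ((le_max_left _ _).trans hz)
  have g3 : 2 ≤ z := (le_max_right _ _).trans hz
  obtain ⟨B1, hB1⟩ := hz1 z g1
  obtain ⟨B2, hB2⟩ := hz2 z g2
  obtain ⟨B3, hB3⟩ := hup z g3
  obtain ⟨Cz, -, hloc⟩ := hLOC z
  have hlog : ∀ᶠ H : ℕ in Filter.atTop, 7 * (A : ℝ) * N ≤ Real.log H :=
    (Real.tendsto_log_atTop.comp tendsto_natCast_atTop_atTop).eventually_ge_atTop _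
  have hev := (((((ev_smallg A b.natAbs K hA hK ε (VW 0 z)⁻¹ Cz hε
      (inv_pos.2 (Pool.Agent.N519.QU.VW_pos 0 z)).le).and hlog).and
    (Filter.eventually_ge_atTop B1)).and (Filter.eventually_ge_atTop B2)).and
    (Filter.eventually_ge_atTop B3)).and ((Filter.eventually_ge_atTop (7 * A * N ^ 2)).and
      ((Filter.eventually_ge_atTop (A * K + 12 * A)).and
        (Filter.eventually_ge_atTop (b.natAbs * N))))
  obtain ⟨H0, hH0⟩ := Filter.eventually_atTop.1 hev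
  refine ⟨H0, fun H hH M c τ hT hτ hcK hM => ?_⟩
  obtain ⟨⟨⟨⟨⟨k1, k2⟩, k3⟩, k4⟩, k5⟩, k6, k7, k8⟩ := hH0 H hH
  obtain ⟨F, hF⟩ : ∃ F : ℕ → ℝ, F = fun h : ℕ => |∑ m ∈ Icc 1 M, lp (Vg A b τ c h m) -
      Sqg A b τ c h z * (((Icc 1 M).filter (fun m : ℕ => 2 ≤ Vg A b τ c h m)).card : ℝ)| :=
    ⟨_, rfl⟩
  have hF0 : ∀ h, 0 ≤ F h := fun h => by
    rw [hF]
    exact abs_nonneg _
  obtain ⟨L, hL⟩ : ∃ L, L = H / N + 1 := ⟨_, rfl⟩
  have hNH : N ≤ H := by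
    have e1 : N ≤ 7 * A * N ^ 2 := by
      calc N = 1 * N ^ 1 := by ring
        _ ≤ 7 * A * N ^ 2 := Nat.mul_le_mul (by omega) (Nat.pow_le_pow_right (by omega) (by omega))
    omega
  have hL1 : H ≤ N * L := by
    rw [hL]
    exact (Nat.lt_mul_div_succ H (by omega)).le
  have hL2 : N * L ≤ 2 * H := by
    rw [hL, Nat.mul_add, Nat.mul_one]
    have := Nat.mul_div_le H N
    omega
  have hblock : ∀ j ∈ range N, ∑ h ∈ Ioc (H + j * L) (H + j * L + L), F h ≤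
      ε / N * (H : ℝ) ^ 2 := by
    intro j hj
    rw [mem_range] at hj
    have hjL : j * L ≤ N * L := Nat.mul_le_mul_right _ hj.le
    rw [hF]
    exact blockg hA hC hK hN2 hε hNC hτ hcK
      (fun B hB hcB σ hσ X1 X2 I1 I2 a1 a2 a3 a4 a5 a6 =>
        hB3 B (k5.trans hB) c σ hT.1 hσ hcB X1 X2 I1 I2 a1 a2 a3 a4 a5 a6)
      (fun α hα B hB hcB => by
        rcases hα with rfl | rfl
        · intro T σ hσ a1 a2 a3
          exact hB1 B (k3.trans hB) T c σ hT hσ hcB a1 a2 a3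
        · intro T σ hσ a1 a2 a3
          exact hB2 B (k4.trans hB) T c σ hT hσ hcB a1 a2 a3)
      hloc k6 k7 k8 k2 k1 hM (by omega) (by omega) hL1 hL2
  have hsub : ∑ h ∈ Ioc H (2 * H), F h ≤ ∑ h ∈ Ioc H (H + N * L), F h := by
    refine Finset.sum_le_sum_of_subset_of_nonneg ?_ fun _ _ _ => hF0 _
    exact Finset.Ioc_subset_Ioc_right (by omega)
  have hfin : ∑ h ∈ Ioc H (2 * H), F h ≤ ε * (H : ℝ) ^ 2 := by
    refine hsub.trans ?_
    rw [cover F H L N]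
    refine (Finset.sum_le_sum hblock).trans (le_of_eq ?_)
    rw [Finset.sum_const, card_range, nsmul_eq_mul]
    field_simp
  rw [hF] at hfin
  exact hfin

end

end Pool.Agent.N704.QV
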