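import Pool.Agent.N519.QU.BL
import Pool.Agent.N728.QU.DefG

/-!
# QV/BL, first part: one value of the parameter (helper704, after helper519)
-/

set_option autoImplicit false

namespace Pool.Agent.N704.QV

open Finset Pool.Agent.N728.QL Pool.Agent.N728.QG Pool.Agent.N728.QU
open Pool.Agent.N519.QU hiding VW_pos lz_nonneg lz_le

noncomputable section

/-- the terms of the sum over `u` -/
def gb (α σ c : ℤ) (z B : ℕ) (β : ℤ) (t : ℕ) : ℝ := Eu σ c z B ((t : ℤ) * (α * t + β))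

theorem blkg {F : ℤ → ℝ} (hF : ∀ n, 0 ≤ F n) (α b : ℤ) (A P L X1 X2 I1 I2 : ℕ) (hA : 1 ≤ A)
    (hI : ∀ u ∈ Ioc X1 X2, ∀ h ∈ Ioc P (P + L), (I1 : ℤ) < α * u + (2 * A * h + b) ∧
      α * u + (2 * A * h + b) ≤ (I2 : ℤ)) :
    ∑ h ∈ Ioc P (P + L), ∑ u ∈ Ioc X1 X2, F ((u : ℤ) * (α * u + (2 * A * h + b))) ≤
      ∑ u ∈ Ioc X1 X2, ∑ v ∈ Ioc I1 I2, F ((u * v : ℕ) : ℤ) := by
  rw [Finset.sum_comm]
  refine Finset.sum_le_sum fun u hu => ?_
  have hinj : Set.InjOn (fun h : ℕ => (α * u + (2 * A * h + b) : ℤ).toNat)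
      (Ioc P (P + L) : Set ℕ) := by
    intro h hh h' hh' he
    have e1 := hI u hu h (Finset.mem_coe.1 hh)
    have e2 := hI u hu h' (Finset.mem_coe.1 hh')
    simp only at he
    have e3 : (2 * A * h : ℤ) = 2 * A * h' := by
      generalize α * (u : ℤ) = w at *
      generalize (2 * A * h : ℤ) = w1 at *
      generalize (2 * A * h' : ℤ) = w2 at *
      omega
    have e4 : (2 * (A : ℤ)) ≠ 0 := by
      have : (1 : ℤ) ≤ A := by exact_mod_cast hA
      omega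
    have e5 := mul_left_cancel₀ e4 e3
    exact_mod_cast e5
  calc ∑ h ∈ Ioc P (P + L), F ((u : ℤ) * (α * u + (2 * A * h + b)))
      = ∑ h ∈ Ioc P (P + L), (fun v : ℕ => F ((u * v : ℕ) : ℤ))
          ((α * u + (2 * A * h + b) : ℤ).toNat) := by
        refine Finset.sum_congr rfl fun h hh => ?_
        have e1 := hI u hu h hh
        have e2 : (((α * u + (2 * A * h + b) : ℤ).toNat : ℕ) : ℤ) = α * u + (2 * A * h + b) :=
          Int.toNat_of_nonneg (by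
            generalize α * (u : ℤ) + (2 * A * h + b) = w at *
            omega)
        show F ((u : ℤ) * (α * u + (2 * A * h + b))) =
          F ((u * (α * u + (2 * A * h + b) : ℤ).toNat : ℕ) : ℤ)
        congr 1
        rw [Nat.cast_mul u, e2]
    _ = ∑ v ∈ (Ioc P (P + L)).image (fun h : ℕ => (α * u + (2 * A * h + b) : ℤ).toNat),
        F ((u * v : ℕ) : ℤ) := by
        rw [Finset.sum_image hinj]
    _ ≤ ∑ v ∈ Ioc I1 I2, F ((u * v : ℕ) : ℤ) := by
        refine Finset.sum_le_sum_of_subset_of_nonneg ?_ fun _ _ _ => hF _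
        intro v hv
        rw [mem_image] at hv
        obtain ⟨h, hh, rfl⟩ := hv
        have e1 := hI u hu h hh
        rw [mem_Ioc]
        generalize α * (u : ℤ) + (2 * A * h + b) = w at *
        omega

theorem plusg (A : ℕ) (b τ c : ℤ) (z B h M : ℕ) :
    ∑ m ∈ Ioc h M, EB z B (Vg A b τ c h m) =
    ∑ t ∈ Icc 1 (M - h), gb A τ c z B (2 * A * h + b) t := by
  refine Finset.sum_nbij' (fun m => m - h) (fun t => t + h) ?_ ?_ ?_ ?_ ?_
  · intro m hm
    rw [mem_Ioc] at hm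
    rw [mem_Icc]
    omega
  · intro t ht
    rw [mem_Icc] at ht
    rw [mem_Ioc]
    omega
  · intro m hm
    rw [mem_Ioc] at hm
    show m - h + h = m
    omega
  · intro t _
    show t + h - h = t
    omega
  · intro m hm
    rw [mem_Ioc] at hm
    obtain ⟨t, rfl⟩ := Nat.exists_eq_add_of_le hm.1.le
    show EB z B (Vg A b τ c h (h + t)) = gb A τ c z B (2 * A * h + b) (h + t - h)
    rw [Nat.add_sub_cancel_left]
    unfold gb
    rw [Eu_eq]
    congr 1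
    unfold Vg
    push_cast
    ring

theorem minusg (A : ℕ) (b τ c : ℤ) (z B h M : ℕ) :
    ∑ m ∈ Icc 1 (min M (h - 1)), EB z B (Vg A b τ c h m) =
    ∑ t ∈ Ioc (h - 1 - M) (h - 1), gb (-A) (-τ) c z B (2 * A * h + b) t := by
  refine Finset.sum_nbij' (fun m => h - m) (fun t => h - t) ?_ ?_ ?_ ?_ ?_
  · intro m hm
    rw [mem_Icc] at hm
    rw [mem_Ioc]
    omega
  · intro t ht
    rw [mem_Ioc] at ht
    rw [mem_Icc]
    omega
  · intro m hm
    rw [mem_Icc] at hm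
    show h - (h - m) = m
    omega
  · intro t ht
    rw [mem_Ioc] at ht
    show h - (h - t) = t
    omega
  · intro m hm
    rw [mem_Icc] at hm
    obtain ⟨t, rfl⟩ := Nat.exists_eq_add_of_le (show m ≤ h by omega)
    show EB z B (Vg A b τ c (m + t) m) = gb (-A) (-τ) c z B (2 * A * ((m + t : ℕ) : ℤ) + b) (m + t - m)
    rw [Nat.add_sub_cancel_left]
    unfold gb
    rw [Eu_eq]
    congr 1
    unfold Vg
    push_cast
    ring

theorem Vg_self (a b τ c : ℤ) (h : ℕ) : Vg a b τ c h h = c := by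
  unfold Vg
  ring

/-- one `h` -/
theorem per_hg (A : ℕ) (b τ c : ℤ) (z B P L M T h : ℕ) (hh : h ∈ Ioc P (P + L)) (hT : T ≤ P) :
    |∑ m ∈ Icc 1 M, EB z B (Vg A b τ c h m)| ≤
      |∑ t ∈ Icc 1 (M - (P + L)), gb A τ c z B (2 * A * h + b) t| +
      |∑ t ∈ Icc 1 T, gb (-A) (-τ) c z B (2 * A * h + b) t| +
      |∑ t ∈ Icc 1 (min T (P + L - M)), gb (-A) (-τ) c z B (2 * A * h + b) t| +
      ∑ t ∈ Ioc (M - (P + L)) (M - (P + L) + L), |gb A τ c z B (2 * A * h + b) t| +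
      ∑ t ∈ Ioc (P - M) (P - M + L), |gb (-A) (-τ) c z B (2 * A * h + b) t| +
      2 * ∑ t ∈ Ioc T (P + L), |gb (-A) (-τ) c z B (2 * A * h + b) t| + |EB z B c| := by
  rw [mem_Ioc] at hh
  obtain ⟨f, hf⟩ : ∃ f : ℕ → ℝ, f = gb A τ c z B (2 * A * h + b) := ⟨_, rfl⟩
  obtain ⟨g, hg⟩ : ∃ g : ℕ → ℝ, g = gb (-A) (-τ) c z B (2 * A * h + b) := ⟨_, rfl⟩
  rw [split_h _ h M (by omega), plusg, minusg, ← hf, ← hg, Vg_self]
  have s1 : |∑ t ∈ Icc 1 (M - h), f t - ∑ t ∈ Icc 1 (M - (P + L)), f t| ≤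
      ∑ t ∈ Ioc (M - (P + L)) (M - (P + L) + L), |f t| :=
    diff_le f (by omega) le_rfl (by omega)
  have s2 : |∑ t ∈ Icc 1 (h - 1), g t - ∑ t ∈ Icc 1 T, g t| ≤ ∑ t ∈ Ioc T (P + L), |g t| :=
    diff_le g (by omega) le_rfl (by omega)
  have p1 : 0 ≤ ∑ t ∈ Ioc T (P + L), |g t| := Finset.sum_nonneg fun _ _ => abs_nonneg _
  have p2 : 0 ≤ ∑ t ∈ Ioc (P - M) (P - M + L), |g t| := Finset.sum_nonneg fun _ _ => abs_nonneg _
  have s3 : |∑ t ∈ Icc 1 (h - 1 - M), g t - ∑ t ∈ Icc 1 (min T (P + L - M)), g t| ≤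
      ∑ t ∈ Ioc (P - M) (P - M + L), |g t| + ∑ t ∈ Ioc T (P + L), |g t| := by
    rcases le_total (h - 1 - M) (min T (P + L - M)) with hc | hc
    · rw [abs_sub_comm]
      have := diff_le g (X' := P - M) (Y' := P - M + L) hc (by omega) (by
        have := min_le_right T (P + L - M)
        omega)
      linarith
    · rcases le_or_gt T (P + L - M) with hT' | hT'
      · rw [min_eq_left hT'] at hc ⊢
        have := diff_le g (X' := T) (Y' := P + L) hc le_rfl (by omega)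
        linarith
      · rw [min_eq_right hT'.le] at hc ⊢
        have h9 : h - 1 - M = P + L - M := by omega
        rw [h9, sub_self, abs_zero]
        linarith
  have s4 : ∑ t ∈ Ioc (h - 1 - M) (h - 1), g t = ∑ t ∈ Icc 1 (h - 1), g t -
      ∑ t ∈ Icc 1 (h - 1 - M), g t := diff_eq g (by omega)
  rw [s4]
  have s5 : |(if h ≤ M then EB z B c else 0)| ≤ |EB z B c| := by
    split_ifs
    · exact le_rfl
    · rw [abs_zero]
      exact abs_nonneg _
  have t1 := abs_le.1 s1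
  have t2 := abs_le.1 s2
  have t3 := abs_le.1 s3
  have t5 := abs_le.1 s5
  have u1 := abs_le.1 (le_refl |∑ t ∈ Icc 1 (M - (P + L)), f t|)
  have u2 := abs_le.1 (le_refl |∑ t ∈ Icc 1 T, g t|)
  have u3 := abs_le.1 (le_refl |∑ t ∈ Icc 1 (min T (P + L - M)), g t|)
  rw [abs_le]
  constructor
  · linarith [t1.1, t2.1, t3.1, t5.1, u1.1, u2.1, u3.1, t1.2, t2.2, t3.2, t5.2, u1.2, u2.2, u3.2]
  · linarith [t1.1, t2.1, t3.1, t5.1, u1.1, u2.1, u3.1, t1.2, t2.2, t3.2, t5.2, u1.2, u2.2, u3.2]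

/-! ### Small values and the local part -/

/-- growth of the polynomial beyond `|b|` -/
theorem grow {A : ℕ} (hA : 1 ≤ A) (b : ℤ) {x k : ℕ} (hx : b.natAbs < x) :
    (k : ℤ) ^ 2 ≤ ((A : ℤ) * ((x + k : ℕ) : ℤ) ^ 2 + b * ((x + k : ℕ) : ℤ)) -
      ((A : ℤ) * (x : ℤ) ^ 2 + b * x) := by
  have e1 : ((A : ℤ) * ((x + k : ℕ) : ℤ) ^ 2 + b * ((x + k : ℕ) : ℤ)) -
      ((A : ℤ) * (x : ℤ) ^ 2 + b * x) = k * (A * k + (2 * A * x + b)) := by
    push_cast
    ring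
  rw [e1]
  have hA' : (1 : ℤ) ≤ A := by exact_mod_cast hA
  have hk : (0 : ℤ) ≤ k := Int.natCast_nonneg _
  have hx' : (b.natAbs : ℤ) < x := by exact_mod_cast hx
  have hb : -(b.natAbs : ℤ) ≤ b := by omega
  have hx0 : (0 : ℤ) ≤ x := Int.natCast_nonneg _
  have e2 : (x : ℤ) ≤ A * x := by nlinarith
  have e3 : (0 : ℤ) ≤ 2 * A * x + b := by nlinarith
  have e4 : (k : ℤ) ≤ A * k := by nlinarith
  nlinarith

theorem small_partg {A : ℕ} (hA : 1 ≤ A) (b : ℤ) {τ c : ℤ} (hτ : τ = 1 ∨ τ = -1) (z B h M : ℕ)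
    (hB : 1 ≤ B) :
    |∑ m ∈ Icc 1 M, (if 2 ≤ Vg A b τ c h m ∧ Vg A b τ c h m < B then EE z (Vg A b τ c h m)
      else 0)| ≤ ((Nat.sqrt B : ℝ) + 1 + b.natAbs) * (Real.log B + (VW 0 z)⁻¹) := by
  have hB1 : (1 : ℝ) ≤ B := by exact_mod_cast hB
  rw [← Finset.sum_filter]
  refine (Finset.abs_sum_le_sum_abs _ _).trans ?_
  obtain ⟨S, hS⟩ : ∃ S, S = (Icc 1 M).filter
      (fun m => 2 ≤ Vg A b τ c h m ∧ Vg A b τ c h m < B) := ⟨_, rfl⟩
  rw [← hS]
  have hcard1 : (S.filter (fun m => b.natAbs < m)).card ≤ Nat.sqrt B + 1 := by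
    apply card_small
    intro x hx y hy hxy
    rw [mem_filter, hS, mem_filter] at hx hy
    obtain ⟨k, rfl⟩ := Nat.exists_eq_add_of_le hxy
    rw [Nat.add_sub_cancel_left]
    have h1 := hx.1.2
    have h2 := hy.1.2
    unfold Vg at h1 h2
    have h3 := grow hA b (x := x) (k := k) hx.2
    have h4 : ((k : ℤ)) ^ 2 ≤ B := by
      rcases hτ with rfl | rfl
      · linarith [h1.1, h1.2, h2.1, h2.2]
      · linarith [h1.1, h1.2, h2.1, h2.2]
    exact_mod_cast h4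
  have hcard2 : (S.filter (fun m => ¬ b.natAbs < m)).card ≤ b.natAbs := by
    have h1 : S.filter (fun m => ¬ b.natAbs < m) ⊆ Icc 1 b.natAbs := by
      intro m hm
      rw [mem_filter, hS, mem_filter, mem_Icc] at hm
      rw [mem_Icc]
      omega
    refine (Finset.card_le_card h1).trans ?_
    rw [Nat.card_Icc]
    omega
  have hcard : S.card ≤ Nat.sqrt B + 1 + b.natAbs := by
    have := Finset.card_filter_add_card_filter_not (s := S) (fun m => b.natAbs < m)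
    omega
  calc ∑ m ∈ S, |EE z (Vg A b τ c h m)|
      ≤ ∑ m ∈ S, (Real.log B + (VW 0 z)⁻¹) := by
        refine Finset.sum_le_sum fun m hm => ?_
        rw [hS, mem_filter] at hm
        apply EE_le _ hB1
        exact_mod_cast hm.2.2.le
    _ = (S.card : ℝ) * (Real.log B + (VW 0 z)⁻¹) := by
        rw [Finset.sum_const, nsmul_eq_mul]
    _ ≤ ((Nat.sqrt B : ℝ) + 1 + b.natAbs) * (Real.log B + (VW 0 z)⁻¹) := by
        apply mul_le_mul_of_nonneg_right
        · exact_mod_cast hcard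
        · have := Real.log_nonneg hB1
          have := (inv_pos.2 (VW_pos 0 z)).le
          linarith

theorem loc_partg {A : ℕ} (hA : 1 ≤ A) {b : ℤ} {z : ℕ} {C : ℝ}
    (hC : ∀ (τ c : ℤ) (h M1 M2 : ℕ), M1 ≤ M2 →
    |∑ m ∈ Ioc M1 M2, lz z (Vg A b τ c h m) - ((M2 : ℝ) - M1) * Sqg A b τ c h z| ≤ C)
    {τ : ℤ} (hτ : τ = 1 ∨ τ = -1) (c : ℤ) (h M : ℕ) :
    |∑ m ∈ (Icc 1 M).filter (fun m : ℕ => 2 ≤ Vg A b τ c h m), lz z (Vg A b τ c h m) -
      Sqg A b τ c h z * (((Icc 1 M).filter (fun m : ℕ => 2 ≤ Vg A b τ c h m)).card : ℝ)| ≤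
      C + b.natAbs * (2 * (VW 0 z)⁻¹ + C) := by
  obtain ⟨S, hS⟩ : ∃ S, S = Sqg A b τ c h z := ⟨_, rfl⟩
  have hW0 : 0 < (VW 0 z)⁻¹ := inv_pos.2 (VW_pos 0 z)
  have hSb : |S| ≤ C + (VW 0 z)⁻¹ := by
    have h1 := hC τ c h 0 1 (by norm_num)
    rw [← hS] at h1
    have h2 : ∑ m ∈ Ioc 0 1, lz z (Vg A b τ c h m) = lz z (Vg A b τ c h 1) := by
      have : Ioc 0 1 = {1} := by decide
      rw [this, Finset.sum_singleton]
    rw [h2] at h1
    norm_num at h1
    have h3 := lz_nonneg z (Vg A b τ c h 1)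
    have h4 := lz_le z (Vg A b τ c h 1)
    have h5 := abs_le.1 h1
    rw [abs_le]
    constructor <;> linarith [h5.1, h5.2]
  obtain ⟨M1, M2, h12, he⟩ : ∃ M1 M2, M1 ≤ M2 ∧
      (Icc 1 M).filter (fun m : ℕ => 2 ≤ Vg A b τ c h m ∧ b.natAbs < m) = Ioc M1 M2 := by
    rcases hτ with rfl | rfl
    · obtain ⟨M1, h1, h2⟩ := filt_up (fun m : ℕ => 2 ≤ Vg A b 1 c h m ∧ b.natAbs < m) (by
        intro m m' hm h2
        obtain ⟨k, rfl⟩ := Nat.exists_eq_add_of_le hm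
        have h3 := grow hA b (x := m) (k := k) h2.2
        have h4 : (0 : ℤ) ≤ (k : ℤ) ^ 2 := sq_nonneg _
        have h5 := h2.1
        refine ⟨?_, by omega⟩
        unfold Vg at h5 ⊢
        linarith) M
      exact ⟨M1, M, h1, h2⟩
    · obtain ⟨M2, h2⟩ := filt_down (fun m : ℕ => m ≤ b.natAbs ∨ 2 ≤ Vg A b (-1) c h m) (by
        intro m m' hm h2
        by_cases hmb : m ≤ b.natAbs
        · exact Or.inl hmb
        · right
          obtain ⟨k, rfl⟩ := Nat.exists_eq_add_of_le hm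
          have h3 := grow hA b (x := m) (k := k) (not_le.1 hmb)
          have h4 : (0 : ℤ) ≤ (k : ℤ) ^ 2 := sq_nonneg _
          rcases h2 with h2 | h2
          · omega
          · unfold Vg at h2 ⊢
            linarith) M
      refine ⟨min b.natAbs M2, M2, min_le_right _ _, ?_⟩
      ext m
      have h3 : m ∈ (Icc 1 M).filter (fun m : ℕ => m ≤ b.natAbs ∨ 2 ≤ Vg A b (-1) c h m) ↔
        m ∈ Ioc 0 M2 := by rw [h2]
      simp only [mem_filter, mem_Icc, mem_Ioc] at h3 ⊢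
      constructor
      · rintro ⟨h4, h5, h6⟩
        have := h3.1 ⟨h4, Or.inr h5⟩
        omega
      · rintro ⟨h4, h5⟩
        have h6 : b.natAbs < m := by
          rcases le_total b.natAbs M2 with hh | hh
          · rwa [min_eq_left hh] at h4
          · rw [min_eq_right hh] at h4
            omega
        have h7 := h3.2 ⟨by omega, h5⟩
        exact ⟨h7.1, h7.2.resolve_left (by omega), h6⟩
  have hsplit : ∀ F : ℕ → ℝ, ∑ m ∈ (Icc 1 M).filter (fun m : ℕ => 2 ≤ Vg A b τ c h m), F m =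
      ∑ m ∈ Ioc M1 M2, F m +
      ∑ m ∈ ((Icc 1 M).filter (fun m : ℕ => 2 ≤ Vg A b τ c h m)).filter
        (fun m => ¬ b.natAbs < m), F m := by
    intro F
    rw [← he, ← Finset.filter_filter, Finset.sum_filter_add_sum_filter_not]
  obtain ⟨R, hR⟩ : ∃ R, R = ((Icc 1 M).filter (fun m : ℕ => 2 ≤ Vg A b τ c h m)).filter
        (fun m => ¬ b.natAbs < m) := ⟨_, rfl⟩
  have hRc : (R.card : ℝ) ≤ b.natAbs := by
    have h1 : R ⊆ Icc 1 b.natAbs := by
      intro m hm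
      rw [hR, mem_filter, mem_filter, mem_Icc] at hm
      rw [mem_Icc]
      omega
    have h2 := (Finset.card_le_card h1)
    rw [Nat.card_Icc] at h2
    have h3 : R.card ≤ b.natAbs := by omega
    exact_mod_cast h3
  have hcard : (((Icc 1 M).filter (fun m : ℕ => 2 ≤ Vg A b τ c h m)).card : ℝ) =
      ((M2 : ℝ) - M1) + R.card := by
    have h1 := hsplit (fun _ => 1)
    rw [Finset.sum_const, Finset.sum_const, Finset.sum_const, Nat.card_Ioc, ← hR] at h1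
    simp only [nsmul_eq_mul, mul_one] at h1
    rw [h1, Nat.cast_sub h12]
  rw [hsplit (fun m => lz z (Vg A b τ c h m)), hcard, ← hR, ← hS]
  have h1 := hC τ c h M1 M2 h12
  rw [← hS] at h1
  have h2 : |∑ m ∈ R, lz z (Vg A b τ c h m)| ≤ b.natAbs * (VW 0 z)⁻¹ := by
    rw [abs_of_nonneg (Finset.sum_nonneg fun _ _ => lz_nonneg _ _)]
    calc ∑ m ∈ R, lz z (Vg A b τ c h m) ≤ ∑ m ∈ R, (VW 0 z)⁻¹ :=
          Finset.sum_le_sum fun m _ => lz_le _ _
      _ = R.card * (VW 0 z)⁻¹ := by rw [Finset.sum_const, nsmul_eq_mul]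
      _ ≤ _ := mul_le_mul_of_nonneg_right hRc hW0.le
  have h3 : |S * R.card| ≤ b.natAbs * (C + (VW 0 z)⁻¹) := by
    rw [abs_mul, Nat.abs_cast, mul_comm]
    exact mul_le_mul hRc hSb (abs_nonneg _) (Nat.cast_nonneg _)
  have e1 := abs_le.1 h1
  have e2 := abs_le.1 h2
  have e3 := abs_le.1 h3
  rw [abs_le]
  constructor
  · linarith [e1.1, e2.1, e3.2]
  · linarith [e1.2, e2.2, e3.1]

/-- the difference for one `h` -/
theorem D_hg {A : ℕ} (hA : 1 ≤ A) {b : ℤ} {z : ℕ} {C : ℝ}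
    (hC : ∀ (τ c : ℤ) (h M1 M2 : ℕ), M1 ≤ M2 →
    |∑ m ∈ Ioc M1 M2, lz z (Vg A b τ c h m) - ((M2 : ℝ) - M1) * Sqg A b τ c h z| ≤ C)
    {τ : ℤ} (hτ : τ = 1 ∨ τ = -1) (c : ℤ) (h M B : ℕ) (hB : 2 ≤ B) :
    |∑ m ∈ Icc 1 M, lp (Vg A b τ c h m) -
      Sqg A b τ c h z * (((Icc 1 M).filter (fun m : ℕ => 2 ≤ Vg A b τ c h m)).card : ℝ)| ≤
    |∑ m ∈ Icc 1 M, EB z B (Vg A b τ c h m)| +
      (((Nat.sqrt B : ℝ) + 1 + b.natAbs) * (Real.log B + (VW 0 z)⁻¹) +
        (C + b.natAbs * (2 * (VW 0 z)⁻¹ + C))) := by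
  have h1 := small_partg hA b (c := c) hτ z B h M (by omega)
  have h2 := loc_partg hA hC hτ c h M
  have h3 : ∑ m ∈ Icc 1 M, lp (Vg A b τ c h m) = ∑ m ∈ Icc 1 M, EB z B (Vg A b τ c h m) +
      ∑ m ∈ Icc 1 M, (if 2 ≤ Vg A b τ c h m ∧ Vg A b τ c h m < B then EE z (Vg A b τ c h m)
        else 0) +
      ∑ m ∈ (Icc 1 M).filter (fun m : ℕ => 2 ≤ Vg A b τ c h m), lz z (Vg A b τ c h m) := by
    rw [Finset.sum_filter, ← Finset.sum_add_distrib, ← Finset.sum_add_distrib]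
    refine Finset.sum_congr rfl fun m _ => ?_
    unfold EB EE
    have hB' : (2 : ℤ) ≤ B := by exact_mod_cast hB
    by_cases c1 : (B : ℤ) ≤ Vg A b τ c h m
    · rw [if_pos c1, if_neg (by omega), if_pos (by omega)]
      ring
    · by_cases c2 : 2 ≤ Vg A b τ c h m
      · rw [if_neg c1, if_pos (by omega), if_pos c2]
        ring
      · rw [if_neg c1, if_neg (by omega), if_neg c2, lp_of_lt (by omega)]
        ring
  rw [h3]
  have t1 := abs_le.1 h1
  have t2 := abs_le.1 h2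
  have t3 := abs_le.1 (le_refl |∑ m ∈ Icc 1 M, EB z B (Vg A b τ c h m)|)
  rw [abs_le]
  constructor
  · linarith [t1.1, t2.1, t3.1]
  · linarith [t1.2, t2.2, t3.2]

end

end Pool.Agent.N704.QV
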